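import Pool.Agent.helper32.TRI.Spec

/-!
# Project TRI (MP_561ff4_al), row FT4: assembly for any `r`, `k`
-/

set_option autoImplicit false

open Finset

namespace Pool.Agent.TRI

open Pool.Agent.EXC

theorem FT4 (hYC4 : YC4_stmt) : FT4_stmt := by
  intro F _ _ r k hk hH x hx
  have hfin : Finite (Lm C4 F) := inferInstance
  have hfin2 : Finite (Lm C4 F ≃ₗ[F] Lm C4 F) := Finite.of_injective (fun g => (g : Lm C4 F → Lm C4 F)) DFunLike.coe_injective
  have hfin3 : Finite (EG C4 F) := inferInstance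
  obtain ⟨t, a, b, m, hm, hT, hY⟩ := hYC4 F x (g4_ARA F x) hx
  obtain ⟨g, Z, hZ, hN⟩ := hH a b m _ hm hT hY
  refine g_GR2 (EG C4 F) x t r k g Z hk hZ fun N hN' => hN N ?_
  have h1 : MulAut.conj (Z ^ N) = 1 := by rw [map_pow, hN']
  refine (g4_FIX F).2 _ fun g => ?_
  have h3 := DFunLike.congr_fun h1 g
  rw [MulAut.conj_apply, MulAut.one_apply] at h3
  exact mul_inv_eq_iff_eq_mul.1 h3

end Pool.Agent.TRI
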