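import Pool.Agent.helper32.TRI.Spec

/-!
# Project TRI (MP_561ff4_al), row YC4: the element `x(t) t⁻¹`
-/

set_option autoImplicit false

open Finset

namespace Pool.Agent.TRI

open Pool.Agent.EXC

theorem YC4_smul {F : Type} [Field F] (c t : F) (a v : Lm C4 F) : xe C4 (c • a) t v = xe C4 a (c * t) v := by
  unfold xe
  rw [br_smul_left, fm_smul_left, smul_smul, smul_smul]
  have e1 : t * c = c * t := mul_comm _ _
  have e2 : t ^ 2 * (c * fm C4 a v) * c = (c * t) ^ 2 * fm C4 a v := by ring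
  rw [e1, e2]

theorem YC4_zero {F : Type} [Field F] (a v : Lm C4 F) : xe C4 a 0 v = v := by
  unfold xe
  rw [zero_smul, add_zero, zero_pow two_ne_zero, zero_mul, zero_smul, add_zero]

theorem YC4_one {F : Type} [Field F] (a : Lm C4 F) (g : Lm C4 F ≃ₗ[F] Lm C4 F) (h : IsX C4 a 0 g) : g = 1 := by
  apply LinearEquiv.ext
  intro v
  rw [h v, YC4_zero]
  rfl

theorem YC4_one' {F : Type} [Field F] (a : Lm C4 F) : IsX C4 a 0 (1 : Lm C4 F ≃ₗ[F] Lm C4 F) := by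
  intro v
  rw [YC4_zero]
  rfl

theorem YC4 : YC4_stmt := by
  intro F _ x hRA hx
  obtain ⟨_, _, hF, _⟩ := g4_EXF F
  obtain ⟨a, a', m, ha, ha', hIm, hTp, hm⟩ := g4_GEO F x hRA hx
  obtain ⟨t0, ht0, ht0X⟩ := (hF a ha).2.2.2.2.1 1
  obtain ⟨t, htdef⟩ : ∃ t : EG C4 F, t = ⟨t0, ht0⟩ := ⟨_, rfl⟩
  have htc : (t : Lm C4 F ≃ₗ[F] Lm C4 F) = t0 := by rw [htdef]
  obtain ⟨s, hs⟩ := (hIm t).1 ⟨1, by rw [htc]; exact ht0X⟩
  have hs0 : s ≠ 0 := by
    intro h0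
    rw [h0] at hs
    have h1 := YC4_one a' _ hs
    have h2 : x t = 1 := Subtype.ext h1
    have h3 : t = 1 := by
      apply x.injective
      rw [h2, map_one]
    have h4 : t0 = 1 := by rw [← htc, h3]; rfl
    rw [h4] at ht0X
    exact one_ne_zero ((hF a ha).2.2.2.2.2.2.1 1 0 1 ht0X (YC4_one' a))
  have hTp2 : Tp C4 th4 (s • a') ((-1 : F) • a) m :=
    (g4_TPF F a' a m (g4_TSY F a a' m hTp)).2.2.2.1 s (-1) hs0 (neg_ne_zero.2 one_ne_zero)
  have hinv : IsX C4 ((-1 : F) • a) 1 t0⁻¹ := by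
    obtain ⟨h, hh, hhX⟩ := (hF a ha).2.2.2.2.1 (-1)
    have h1 := (hF a ha).2.2.2.2.2.2.2.2 1 (-1) t0 h ht0X hhX
    rw [add_neg_cancel] at h1
    have h2 : t0 * h = 1 := YC4_one a _ h1
    have h3 : t0⁻¹ = h := inv_eq_of_mul_eq_one_right h2
    intro v
    rw [h3, hhX v, YC4_smul, mul_one]
  refine ⟨t, s • a', (-1 : F) • a, m, hm, hTp2, x t, t⁻¹, ?_, ?_, rfl⟩
  · intro v
    rw [hs v, YC4_smul, mul_one]
  · rw [Subgroup.coe_inv, htc]
    exact hinv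

end Pool.Agent.TRI
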